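import Pool.Agent.UL3.Stmts

/-!
# Squad UL3 (MP_c7c9bf_co), row SEC: sections of a symmetric convex body
-/

set_option autoImplicit false

open MeasureTheory Set
open scoped Pointwise

namespace Pool.Agent.UL3.H36

theorem up_cont (t : ℝ) : Continuous fun p : ℝ × ℝ => up p t := by
  refine (PiLp.continuous_toLp 2 (fun _ : Fin 3 => ℝ)).comp (continuous_pi fun i => ?_)
  fin_cases i
  · exact continuous_fst
  · exact continuous_snd
  · exact continuous_const

theorem pr_cont : Continuous fun x : E3 => ((x 0, x 1) : ℝ × ℝ) :=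
  Continuous.prodMk (EuclideanSpace.proj (𝕜 := ℝ) (0 : Fin 3)).continuous
    (EuclideanSpace.proj (𝕜 := ℝ) (1 : Fin 3)).continuous

theorem sec_neg (K : Set E3) (h : SB K) (t : ℝ) : sec K (-t) = -sec K t := by
  ext p
  rw [Set.mem_neg, mem_sec, mem_sec]
  constructor
  · intro hp
    have := h.sym _ hp
    rw [up_neg, neg_neg] at this
    exact this
  · intro hp
    have := h.sym _ hp
    rw [up_neg, neg_neg] at this
    exact this

theorem vol_neg (S : Set (ℝ × ℝ)) :
    (volume : Measure (ℝ × ℝ)).real (-S) = (volume : Measure (ℝ × ℝ)).real S := by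
  have h : -S = (-1 : ℝ) • S := by
    rw [← Set.image_neg_eq_neg, ← Set.image_smul]
    refine Set.image_congr fun x _ => ?_
    rw [neg_smul, one_smul]
  unfold Measure.real
  rw [h, Measure.addHaar_smul]
  simp

theorem sec_cpt (K : Set E3) (h : SB K) (t : ℝ) : IsCompact (sec K t) := by
  have h1 : IsClosed (sec K t) := h.cpt.isClosed.preimage (up_cont t)
  refine (h.cpt.image pr_cont).of_isClosed_subset h1 ?_
  intro p hp
  exact ⟨up p t, hp, rfl⟩

theorem sec_cvx (K : Set E3) (h : SB K) (t : ℝ) : Convex ℝ (sec K t) := by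
  intro p hp q hq a b ha hb hab
  have h1 := h.cvx hp hq ha hb hab
  rw [up_smul, up_smul, up_add] at h1
  have h2 : a * t + b * t = t := by rw [← add_mul, hab, one_mul]
  rw [h2] at h1
  exact h1

theorem sec_int (K : Set E3) (p : ℝ × ℝ) (hp : up p 0 ∈ interior K) :
    p ∈ interior (sec K 0) := by
  have h1 : IsOpen ((fun p : ℝ × ℝ => up p 0) ⁻¹' interior K) :=
    isOpen_interior.preimage (up_cont 0)
  have h2 : (fun p : ℝ × ℝ => up p 0) ⁻¹' interior K ⊆ sec K 0 := fun q hq =>
    interior_subset (s := K) hq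
  exact interior_maximal h2 h1 hp

theorem up_zz : up 0 0 = 0 := by
  ext i
  fin_cases i <;> rfl

theorem sec : SecStmt := by
  intro K h
  have h0 : (0 : ℝ × ℝ) ∈ interior (UL3.sec K 0) := by
    refine sec_int K 0 ?_
    rw [up_zz]
    exact h.zero_mem
  refine ⟨⟨sec_cpt K h 0, sec_cvx K h 0, ?_, ⟨0, h0⟩⟩,
    fun t => ⟨sec_cpt K h t, sec_cvx K h t, sec_neg K h t, ?_⟩, fun p hp => sec_int K p hp, ?_, ?_⟩
  · intro x hx
    have h1 := sec_neg K h 0
    rw [neg_zero] at h1
    rw [h1]
    exact Set.neg_mem_neg.2 hx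
  · unfold al
    rw [sec_neg K h t, vol_neg]
  · unfold al Measure.real
    refine ENNReal.toReal_pos ?_ ?_
    · exact (Measure.measure_pos_of_nonempty_interior volume ⟨0, h0⟩).ne'
    · exact (sec_cpt K h 0).measure_lt_top.ne
  · intro t ht
    rw [Set.eq_empty_iff_forall_notMem]
    intro p hp
    have hb : BddAbove ((fun x : E3 => x 2) '' K) :=
      (h.cpt.image (EuclideanSpace.proj (𝕜 := ℝ) (2 : Fin 3)).continuous).bddAbove
    have h1 : t ≤ hgt K := le_csSup hb ⟨up p t, hp, rfl⟩
    have h2 : -t ≤ hgt K := le_csSup hb ⟨-up p t, h.sym _ hp, rfl⟩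
    exact absurd (abs_le.2 ⟨by linarith, h1⟩) (not_le.2 ht)

end Pool.Agent.UL3.H36
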